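import Pool.Agent.H20.LIM.Targets

/-!
# Polar coordinates (`T_POL`)
-/

set_option autoImplicit false

open Complex MeasureTheory Set Filter Topology Metric

namespace Pool.Agent.H65.LIM

open Pool.Agent.H20.LIM Pool.Agent.H23.GLM Pool.Agent.H23.DZ

theorem polar_integrableOn {F : ℂ → ℝ} (hF : Integrable F) :
    IntegrableOn (fun p : ℝ × ℝ => p.1 * F (Complex.polarCoord.symm p)) polarCoord.target := by
  have h1 : Integrable (fun q : ℝ × ℝ => F (Complex.measurableEquivRealProd.symm q)) :=
    (Complex.volume_preserving_equiv_real_prod.symm).integrable_comp_of_integrable hF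
  have h2 : IntegrableOn (fun q : ℝ × ℝ => F (Complex.measurableEquivRealProd.symm q))
      (polarCoord.symm '' polarCoord.target) := h1.integrableOn
  rw [integrableOn_image_iff_integrableOn_abs_det_fderiv_smul volume
    polarCoord.open_target.measurableSet
    (fun p _ => (hasFDerivAt_polarCoord_symm p).hasFDerivWithinAt) polarCoord.symm.injOn] at h2
  refine h2.congr_fun (fun p hp => ?_) polarCoord.open_target.measurableSet
  have h3 : 0 < p.1 := hp.1
  simp only [det_fderivPolarCoordSymm, abs_of_pos h3, smul_eq_mul]
  rfl

theorem pf_pol : T_POL := by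
  intro f c r hr hf
  let F : ℂ → ℝ := fun z => (ball c r).indicator f (c + z)
  have hF : Integrable F := by
    have h1 : Integrable ((ball c r).indicator f) := (integrable_indicator_iff measurableSet_ball).2 hf
    exact h1.comp_add_left c
  have e1 : ∫ w in ball c r, f w = ∫ z, F z := by
    rw [← integral_indicator measurableSet_ball]
    exact (integral_add_left_eq_self (fun w => (ball c r).indicator f w) c).symm
  have hval : ∀ ρ θ : ℝ, 0 < ρ → F (Complex.polarCoord.symm (ρ, θ)) =
      if ρ < r then f (circleMap c ρ θ) else 0 := by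
    intro ρ θ hρ
    have h2 : c + Complex.polarCoord.symm (ρ, θ) = circleMap c ρ θ := by
      rw [Complex.polarCoord_symm_apply, circleMap, Complex.exp_mul_I]
      push_cast
      rfl
    show (ball c r).indicator f (c + Complex.polarCoord.symm (ρ, θ)) = _
    rw [h2]
    by_cases h : ρ < r
    · rw [if_pos h, indicator_of_mem]
      rw [mem_ball, dist_eq_norm, circleMap_sub_center, norm_circleMap_zero, abs_of_pos hρ]
      exact h
    · rw [if_neg h, indicator_of_notMem]
      rw [mem_ball, dist_eq_norm, circleMap_sub_center, norm_circleMap_zero, abs_of_pos hρ]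
      exact h
  have hinner : ∀ ρ : ℝ, 0 < ρ → ∫ θ in Ioo (-Real.pi) Real.pi,
      ρ * F (Complex.polarCoord.symm (ρ, θ)) =
      (Iio r).indicator (fun ρ => 2 * Real.pi * (ρ * Real.circleAverage f c ρ)) ρ := by
    intro ρ hρ
    simp only [hval ρ _ hρ]
    by_cases h : ρ < r
    · simp only [if_pos h]
      rw [indicator_of_mem (show ρ ∈ Iio r from h), Real.circleAverage_eq_integral_add (-Real.pi),
        integral_const_mul, ← integral_Ioc_eq_integral_Ioo,
        ← intervalIntegral.integral_of_le (by linarith [Real.pi_pos])]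
      have h3 := intervalIntegral.integral_comp_add_right (a := 0) (b := 2 * Real.pi)
        (fun θ => f (circleMap c ρ θ)) (-Real.pi)
      rw [h3, smul_eq_mul]
      have h4 : (0 : ℝ) + -Real.pi = -Real.pi := by ring
      have h5 : 2 * Real.pi + -Real.pi = Real.pi := by ring
      rw [h4, h5]
      field_simp
    · simp only [if_neg h]
      rw [indicator_of_notMem (show ρ ∉ Iio r from h)]
      simp
  have e2 : ∫ z, F z = ∫ ρ in (0 : ℝ)..r, 2 * Real.pi * (ρ * Real.circleAverage f c ρ) := by
    rw [← Complex.integral_comp_polarCoord_symm]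
    have h1 := polar_integrableOn hF
    have h2 : polarCoord.target = Ioi (0 : ℝ) ×ˢ Ioo (-Real.pi) Real.pi := rfl
    rw [h2] at h1 ⊢
    simp only [smul_eq_mul]
    rw [Measure.volume_eq_prod] at h1 ⊢
    rw [setIntegral_prod _ h1, setIntegral_congr_fun measurableSet_Ioi fun ρ hρ => hinner ρ hρ,
      setIntegral_indicator measurableSet_Iio, intervalIntegral.integral_of_le hr.le,
      integral_Ioc_eq_integral_Ioo]
    rfl
  rw [av, setAverage_eq, e1, e2, intervalIntegral.integral_const_mul, smul_eq_mul, measureReal_def,
    Complex.volume_ball, ENNReal.toReal_mul, ENNReal.toReal_pow, ENNReal.toReal_ofReal hr.le]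
  have h6 : ((NNReal.pi : ENNReal)).toReal = Real.pi := rfl
  rw [h6]
  field_simp

end Pool.Agent.H65.LIM
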